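import Pool.Agent.Helper44.TS.Class
import Pool.Agent.Helper36.TS.Frame

/-!
# The gains of the far cells of one class

`Γ z` is the gain of the far cell `(a; z)` in the column `z`. The support of a far cell `F = (a; z)`
in the column `y` is `F y + d_F` (the cap on the third row). Of two far cells of one class at least
one supports the other. From bounds of the single gains it follows that the sum of all the gains
(and the volume of the main cell) is at most `g + τ`.
-/

set_option autoImplicit false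

namespace Pool.Agent.Helper5.TS

open Pool.Agent.Helper84.TS Pool.Agent.Helper36.TS Pool.Agent.Helper44.TS

variable {A : Fin 4 → Fin 4 → Option (Fin 4 → ℝ)}

/-- of two far cells of one class one supports the other one -/
theorem support (h : OF A) {a z y : Fin 4} {F G : Fin 4 → ℝ} (hF : A a z = some F)
    (hG : A a y = some G) (hz : z ≠ a) (hy : y ≠ a) (hzy : z ≠ y) :
    2 + G y ≤ F y + (F a - 1) ∨ 2 + F z ≤ G z + (G a - 1) := by
  have e1 : max ((F a - 1) - (G a - 1)) 0 ≤ F a - 1 :=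
    max_le (by linarith [(h.cell a y G hG).one]) (by linarith [(h.cell a z F hF).one])
  have e2 : max ((G a - 1) - (F a - 1)) 0 ≤ G a - 1 :=
    max_le (by linarith [(h.cell a z F hF).one]) (by linarith [(h.cell a y G hG).one])
  rcases own_far h hF hG hz hy hzy with h1 | h1
  · right
    linarith
  · left
    linarith

/-- the bounds of the gains; `B z y` is the bound for the cell of the column `z` if it supports the
cell of the column `y` -/
structure Gains (A : Fin 4 → Fin 4 → Option (Fin 4 → ℝ)) (a : Fin 4) (Γ : Fin 4 → ℝ)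
    (φ : Fin 4 → ℝ → ℝ) (B : Fin 4 → Fin 4 → ℝ → ℝ → ℝ) (g τ : ℝ) : Prop where
  tau : 0 ≤ τ
  gnn : 0 ≤ g
  mono : ∀ z, z ≠ a → ∀ s t : ℝ, 0 ≤ s → s ≤ t → t ≤ 1 → φ z s ≤ φ z t
  /-- no cell, no gain -/
  none : ∀ z, z ≠ a → A a z = none → Γ z ≤ 0
  one : ∀ z F, z ≠ a → A a z = some F → Γ z ≤ φ z (2 + F z)
  top : ∀ z F, z ≠ a → A a z = some F → Γ z ≤ g
  two : ∀ z y F, z ≠ a → y ≠ a → z ≠ y → A a z = some F → 0 ≤ F y + (F a - 1) →
    Γ z + φ y (F y + (F a - 1)) ≤ g
  three : ∀ z y x F, [a, z, y, x].Nodup → A a z = some F → 0 ≤ F y + (F a - 1) →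
    0 ≤ F x + (F a - 1) →
    Γ z + φ y (F y + (F a - 1)) + φ x (F x + (F a - 1)) ≤ g + τ ∨ Γ z ≤ τ
  cap : ∀ z y F c, z ≠ a → y ≠ a → z ≠ y → A a z = some F → 0 ≤ c → c ≤ F y + (F a - 1) →
    Γ z ≤ B z y (2 + F z) c
  cyc : ∀ z y x, [a, z, y, x].Nodup → ∀ p q r : ℝ, 0 ≤ p → p ≤ 1 → 0 ≤ q → q ≤ 1 → 0 ≤ r →
    r ≤ 1 → B z y p q + B y x q r + B x z r p ≤ g + τ

section

variable {a : Fin 4} {Γ : Fin 4 → ℝ} {φ : Fin 4 → ℝ → ℝ} {B : Fin 4 → Fin 4 → ℝ → ℝ → ℝ} {g τ : ℝ}

theorem far_w (h : OF A) {z : Fin 4} {F : Fin 4 → ℝ} (hF : A a z = some F) (hz : z ≠ a) :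
    0 ≤ 2 + F z ∧ 2 + F z ≤ 1 :=
  far_W (h.cell a z F hF) hz (h.far a z F hz hF)

theorem far_sup_le (h : OF A) {z y : Fin 4} {F : Fin 4 → ℝ} (hF : A a z = some F) (hz : z ≠ a)
    (hy : y ≠ a) (hzy : z ≠ y) : F y + (F a - 1) ≤ 1 := by
  obtain ⟨x, hn⟩ := exists_rest1 (i := a) (j := z) (k := y) (by simp [hz.symm, hy.symm, hzy])
  have h1 := h.cell a z F hF
  have h2 := cell_lin h1 hn
  linarith

/-- a supported cell -/
theorem two_cells (h : OF A) (G : Gains A a Γ φ B g τ) {z y : Fin 4} {F H : Fin 4 → ℝ}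
    (hz : z ≠ a) (hy : y ≠ a) (hzy : z ≠ y) (hF : A a z = some F) (hH : A a y = some H)
    (hs : 2 + H y ≤ F y + (F a - 1)) : Γ z + Γ y ≤ g := by
  have w := far_w h hH hy
  have e1 := G.one y H hy hH
  have e2 := G.mono y hy _ _ w.1 hs (far_sup_le h hF hz hy hzy)
  have e3 := G.two z y F hz hy hzy hF (by linarith)
  linarith

/-- two cells -/
theorem pair_gain (h : OF A) (G : Gains A a Γ φ B g τ) {z y : Fin 4}
    (hz : z ≠ a) (hy : y ≠ a) (hzy : z ≠ y) : Γ z + Γ y ≤ g := by
  rcases hF : A a z with _ | F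
  · have e1 := G.none z hz hF
    rcases hH : A a y with _ | H
    · have e2 := G.none y hy hH
      linarith [G.gnn]
    · have e2 := G.top y H hy hH
      linarith
  · rcases hH : A a y with _ | H
    · have e2 := G.none y hy hH
      have e1 := G.top z F hz hF
      linarith
    · rcases support h hF hH hz hy hzy with hs | hs
      · exact two_cells h G hz hy hzy hF hH hs
      · have := two_cells h G hy hz hzy.symm hH hF hs
        linarith

/-- a cell that supports the two others -/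
theorem source (h : OF A) (G : Gains A a Γ φ B g τ) {z y x : Fin 4} {F H K : Fin 4 → ℝ}
    (hn : [a, z, y, x].Nodup) (hF : A a z = some F) (hH : A a y = some H) (hK : A a x = some K)
    (s1 : 2 + H y ≤ F y + (F a - 1)) (s2 : 2 + K x ≤ F x + (F a - 1)) :
    Γ z + Γ y + Γ x ≤ g + τ := by
  have ne := nodup_ne hn
  have hzy : z ≠ y := nodup_jk hn
  have hzx : z ≠ x := nodup_jl hn
  have hyx : y ≠ x := by
    clear * - hn; revert hn; revert a z y x; decide
  have wH := far_w h hH ne.2.1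
  have wK := far_w h hK ne.2.2
  rcases G.three z y x F hn hF (by linarith) (by linarith) with e | e
  · have e1 := G.one y H ne.2.1 hH
    have e2 := G.mono y ne.2.1 _ _ wH.1 s1 (far_sup_le h hF ne.1 ne.2.1 hzy)
    have e3 := G.one x K ne.2.2 hK
    have e4 := G.mono x ne.2.2 _ _ wK.1 s2 (far_sup_le h hF ne.1 ne.2.2 hzx)
    linarith
  · have := pair_gain h G ne.2.1 ne.2.2 hyx
    linarith

/-- three cells in cyclic order -/
theorem cyclic (h : OF A) (G : Gains A a Γ φ B g τ) {z y x : Fin 4} {F H K : Fin 4 → ℝ}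
    (hn : [a, z, y, x].Nodup) (hF : A a z = some F) (hH : A a y = some H) (hK : A a x = some K)
    (s1 : 2 + H y ≤ F y + (F a - 1)) (s2 : 2 + K x ≤ H x + (H a - 1))
    (s3 : 2 + F z ≤ K z + (K a - 1)) : Γ z + Γ y + Γ x ≤ g + τ := by
  have ne := nodup_ne hn
  have hzy : z ≠ y := nodup_jk hn
  have hzx : z ≠ x := nodup_jl hn
  have hyx : y ≠ x := by
    clear * - hn; revert hn; revert a z y x; decide
  have wF := far_w h hF ne.1
  have wH := far_w h hH ne.2.1
  have wK := far_w h hK ne.2.2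
  have e1 := G.cap z y F (2 + H y) ne.1 ne.2.1 hzy hF wH.1 s1
  have e2 := G.cap y x H (2 + K x) ne.2.1 ne.2.2 hyx hH wK.1 s2
  have e3 := G.cap x z K (2 + F z) ne.2.2 ne.1 hzx.symm hK wF.1 s3
  have e4 := G.cyc z y x hn (2 + F z) (2 + H y) (2 + K x) wF.1 wF.2 wH.1 wH.2 wK.1 wK.2
  linarith

/-- **The gains of all the far cells of one class.** -/
theorem gains_le (h : OF A) (G : Gains A a Γ φ B g τ) {z y x : Fin 4}
    (hn : [a, z, y, x].Nodup) : Γ z + Γ y + Γ x ≤ g + τ := by
  have ne := nodup_ne hn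
  have hzy : z ≠ y := nodup_jk hn
  have hzx : z ≠ x := nodup_jl hn
  have hyx : y ≠ x := by
    clear * - hn; revert hn; revert a z y x; decide
  have p1 := pair_gain h G ne.1 ne.2.1 hzy
  have p2 := pair_gain h G ne.1 ne.2.2 hzx
  have p3 := pair_gain h G ne.2.1 ne.2.2 hyx
  rcases hF : A a z with _ | F
  · have e1 := G.none z ne.1 hF
    linarith [G.tau]
  rcases hH : A a y with _ | H
  · have e1 := G.none y ne.2.1 hH
    linarith [G.tau]
  rcases hK : A a x with _ | K
  · have e1 := G.none x ne.2.2 hK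
    linarith [G.tau]
  have n1 : [a, z, x, y].Nodup := perm_kl hn
  have n2 : [a, y, z, x].Nodup := perm_jk hn
  have n5 : [a, x, z, y].Nodup := perm_jl hn
  rcases support h hF hH ne.1 ne.2.1 hzy with s1 | s1 <;>
    rcases support h hF hK ne.1 ne.2.2 hzx with s2 | s2 <;>
    rcases support h hH hK ne.2.1 ne.2.2 hyx with s3 | s3
  · exact source h G hn hF hH hK s1 s2
  · exact source h G hn hF hH hK s1 s2
  · exact cyclic h G hn hF hH hK s1 s3 s2
  · have := source h G n5 hK hF hH s2 s3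
    linarith
  · have := source h G n2 hH hF hK s1 s3
    linarith
  · have := cyclic h G n1 hF hK hH s2 s3 s1
    linarith
  · have := source h G n2 hH hF hK s1 s3
    linarith
  · have := source h G n5 hK hF hH s2 s3
    linarith

/-- **The gains of the far cells and the main cell.** -/
theorem gains_main (h : OF A) (G : Gains A a Γ φ B g τ) {z y x : Fin 4}
    (hn : [a, z, y, x].Nodup) (h0 : ∀ m, m ≠ a → φ m 0 = 0)
    (hM : ∀ M, A a a = some M → ∀ p q r : ℝ, (p = 0 ∨ 0 < p ∧ p ≤ 1 ∧ p ≤ M z + (M a - 1)) →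
      (q = 0 ∨ 0 < q ∧ q ≤ 1 ∧ q ≤ M y + (M a - 1)) →
      (r = 0 ∨ 0 < r ∧ r ≤ 1 ∧ r ≤ M x + (M a - 1)) →
      fcl a M + φ z p + φ y q + φ x r ≤ g + τ) :
    fo a (A a a) + Γ z + Γ y + Γ x ≤ g + τ := by
  have ne := nodup_ne hn
  rcases hM' : A a a with _ | M
  · have := gains_le h G hn
    simp only [fo]
    linarith
  · have key : ∀ m, m ≠ a → ∃ p, (p = 0 ∨ 0 < p ∧ p ≤ 1 ∧ p ≤ M m + (M a - 1)) ∧ Γ m ≤ φ m p := by
      intro m hm
      rcases hF : A a m with _ | F
      · exact ⟨0, Or.inl rfl, by rw [h0 m hm]; exact G.none m hm hF⟩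
      · have w := far_w h hF hm
        refine ⟨2 + F m, Or.inr ⟨?_, w.2, ?_⟩, G.one m F hm hF⟩
        · obtain ⟨k, l, hn'⟩ := exists_rest2 hm.symm
          have := cell_lin (h.cell a m F hF) hn'
          linarith
        · have := own' (h.cell a a M hM') (h.cell a m F hF) (sep' h hm.symm hM' hF) hm
            (h.main a M hM') (h.far a m F hm hF)
          linarith
    obtain ⟨p, hp, ep⟩ := key z ne.1
    obtain ⟨q, hq, eq⟩ := key y ne.2.1
    obtain ⟨r, hr, er⟩ := key x ne.2.2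
    have := hM M hM' p q r hp hq hr
    simp only [fo]
    linarith

end

end Pool.Agent.Helper5.TS
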