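import Pool.Agent.Helper5.TS.Gain
import Pool.Agent.Helper8.TS.High
import Pool.Agent.Helper74.TS.OneLow
import Pool.Agent.Helper78.TS.Types

/-!
# `CaseOneLow`: the three-row frame with a decoupled low class

Three rows `p, r, s` (good classes) and the low class `a`, which has no main cell or a high one. The
column `a` has three rows (`ColI`), each of the columns `p, r, s` two rows and the far cell of `a`.
-/

set_option autoImplicit false

namespace Pool.Agent.Helper5.TS

open Pool.Agent.Helper84.TS Pool.Agent.Helper36.TS Pool.Agent.Helper74.TS Pool.Agent.Helper78.TS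

/-- the column `z` with the rows `x`, `y`: the multipliers `nx`, `ny` of the rows and `k` of the pair;
all the far cells of the column count -/
noncomputable def cv (A : Fin 4 → Fin 4 → Option (Fin 4 → ℝ)) (P : Fin 4 → Fin 4 → ℝ)
    (a z x y : Fin 4) (nx ny k : ℝ) : ℝ :=
  sx nx (P x x - 1) (-P x z) + sx ny (P y y - 1) (-P y z) - k * min (-P x z) (-P y z)
    + fo x (A x z) + fo y (A y z) + fo a (A a z)

theorem cv_swap (A : Fin 4 → Fin 4 → Option (Fin 4 → ℝ)) (P : Fin 4 → Fin 4 → ℝ)
    (a z x y : Fin 4) (nx ny k : ℝ) : cv A P a z x y nx ny k = cv A P a z y x ny nx k := by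
  unfold cv
  rw [min_comm]
  ring

section

variable {A : Fin 4 → Fin 4 → Option (Fin 4 → ℝ)} {P : Fin 4 → Fin 4 → ℝ} {a p r s : Fin 4}

private theorem nd_p : ∀ {a p r s : Fin 4}, [a, p, r, s].Nodup → [p, a, r, s].Nodup := by decide

private theorem nd_r : ∀ {a p r s : Fin 4}, [a, p, r, s].Nodup → [r, a, p, s].Nodup := by decide

private theorem nd_s : ∀ {a p r s : Fin 4}, [a, p, r, s].Nodup → [s, a, p, r].Nodup := by decide

private theorem slk_nn (h : OLB A P a) {x y z : Fin 4} (hn : [a, x, y, z].Nodup) :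
    0 ≤ slk P x y a z := by
  have := h.pair hn
  unfold slk
  linarith

private theorem nd1 : ∀ {a p r s : Fin 4}, [a, p, r, s].Nodup → [a, p, s, r].Nodup := by decide

private theorem nd2 : ∀ {a p r s : Fin 4}, [a, p, r, s].Nodup → [a, r, s, p].Nodup := by decide

private theorem slk_sw (P : Fin 4 → Fin 4 → ℝ) (x y m n : Fin 4) :
    slk P x y m n = slk P x y n m := by
  unfold slk
  ring

/-- **The three-row frame with a decoupled low class.** -/
theorem asmLow (h : OLB A P a) (hn : [a, p, r, s].Nodup)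
    {np nr ns kpr kps krs lpr lps lrs mpr mps mrs Wa Gp Gr Gs : ℝ}
    (ca : ColI A P a p r s np nr ns kpr kps krs lpr lps lrs Wa)
    (cp : cv A P a p r s nr ns krs ≤ Gp + mrs * slk P r s p a)
    (cr : cv A P a r p s np ns kps ≤ Gr + mps * slk P p s r a)
    (cs : cv A P a s p r np nr kpr ≤ Gs + mpr * slk P p r s a)
    (spr : lpr + mpr ≤ kpr) (sps : lps + mps ≤ kps) (srs : lrs + mrs ≤ krs) :
    ∑ i, VV A i ≤ rowc np (P p p - 1) + rowc nr (P r r - 1) + rowc ns (P s s - 1)
      + kpr * ((P p p - 1) + (P r r - 1)) + kps * ((P p p - 1) + (P s s - 1))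
      + krs * ((P r r - 1) + (P s s - 1)) + Wa + (fo a (A a a) + Gp + Gr + Gs) := by
  have ne := nodup_ne hn
  have n1 := nd_p hn
  have n2 := nd_r hn
  have n3 := nd_s hn
  have mp := h.mn p ne.1
  have mr := h.mn r ne.2.1
  have ms := h.mn s ne.2.2
  have fp := row_sx np (h.of.cell p p _ mp) n1
  have fr := row_sx nr (h.of.cell r r _ mr) n2
  have fs := row_sx ns (h.of.cell s s _ ms) n3
  have s1 := slk_nn h hn
  have s2 := slk_nn h (nd1 hn)
  have s3 := slk_nn h (nd2 hn)
  have t1 := mul_le_mul_of_nonneg_right spr s1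
  have t2 := mul_le_mul_of_nonneg_right sps s2
  have t3 := mul_le_mul_of_nonneg_right srs s3
  have rp : rst A id p a = fo p (A p a) := if_neg ne.1
  have rr : rst A id r a = fo r (A r a) := if_neg ne.2.1
  have rs : rst A id s a = fo s (A s a) := if_neg ne.2.2
  rw [slk_sw P r s p a] at cp
  rw [slk_sw P p s r a] at cr
  rw [slk_sw P p r s a] at cs
  unfold ColI at ca
  rw [rp, rr, rs] at ca
  unfold cv at cp cr cs
  have e1 : kpr * slk P p r a s = kpr * ((P p p - 1) + (P r r - 1))
      - kpr * min (-P p a) (-P r a) - kpr * min (-P p s) (-P r s) := by unfold slk; ring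
  have e2 : kps * slk P p s a r = kps * ((P p p - 1) + (P s s - 1))
      - kps * min (-P p a) (-P s a) - kps * min (-P p r) (-P s r) := by unfold slk; ring
  have e3 : krs * slk P r s a p = krs * ((P r r - 1) + (P s s - 1))
      - krs * min (-P r a) (-P s a) - krs * min (-P r p) (-P s p) := by unfold slk; ring
  rw [e1, add_mul] at t1
  rw [e2, add_mul] at t2
  rw [e3, add_mul] at t3
  rw [sum4 hn (fun t => VV A t), Pool.Agent.Helper84.TS.VV_eq hn,
    Pool.Agent.Helper84.TS.VV_eq n1, Pool.Agent.Helper84.TS.VV_eq n2,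
    Pool.Agent.Helper84.TS.VV_eq n3, mp, mr, ms]
  have fop : fo p (some (P p)) = fcl p (P p) := rfl
  have for' : fo r (some (P r)) = fcl r (P r) := rfl
  have fos : fo s (some (P s)) = fcl s (P s) := rfl
  rw [fop, for', fos]
  linarith [ca, cp, cr, cs, t1, t2, t3, fp, fr, fs]

/-- the gains of the far cells of the low class together with a high main cell -/
theorem gains_hi (h : OF A) (hl : R2 A a) {z y x : Fin 4} {Γ : Fin 4 → ℝ} {φ : Fin 4 → ℝ → ℝ}
    {B : Fin 4 → Fin 4 → ℝ → ℝ → ℝ} {g τ : ℝ} (G : Gains A a Γ φ B g τ)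
    (H : Pool.Agent.Helper8.TS.Hi φ a (3 / 5) (g + τ)) (hn : [a, z, y, x].Nodup) :
    fo a (A a a) + Γ z + Γ y + Γ x ≤ g + τ := by
  refine gains_main h G hn (fun m hm => (H.star m hm).zero) fun M hM p q r hp hq hr => ?_
  rcases hl with hl | ⟨M', hM', hd⟩
  · rw [hl] at hM
    exact absurd hM (by simp)
  · rw [hM, Option.some.injEq] at hM'
    subst hM'
    exact Pool.Agent.Helper8.TS.gains_high H (h.cell a a M hM) hn (h.main a M hM) hd hp hq hr

/-- the total from the gains -/
theorem total_low (h : OLB A P a) (hn : [a, p, r, s].Nodup) {Γ : Fin 4 → ℝ}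
    {φ : Fin 4 → ℝ → ℝ} {B : Fin 4 → Fin 4 → ℝ → ℝ → ℝ} {g τ : ℝ} (G : Gains A a Γ φ B g τ)
    (H : Pool.Agent.Helper8.TS.Hi φ a (3 / 5) (g + τ))
    {np nr ns kpr kps krs lpr lps lrs mpr mps mrs Wa Wp Wr Ws T : ℝ}
    (ca : ColI A P a p r s np nr ns kpr kps krs lpr lps lrs Wa)
    (cp : cv A P a p r s nr ns krs ≤ Wp + Γ p + mrs * slk P r s p a)
    (cr : cv A P a r p s np ns kps ≤ Wr + Γ r + mps * slk P p s r a)
    (cs : cv A P a s p r np nr kpr ≤ Ws + Γ s + mpr * slk P p r s a)
    (spr : lpr + mpr ≤ kpr) (sps : lps + mps ≤ kps) (srs : lrs + mrs ≤ krs)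
    (tot : rowc np (P p p - 1) + rowc nr (P r r - 1) + rowc ns (P s s - 1)
      + kpr * ((P p p - 1) + (P r r - 1)) + kps * ((P p p - 1) + (P s s - 1))
      + krs * ((P r r - 1) + (P s s - 1)) + Wa + Wp + Wr + Ws + g + τ ≤ T) :
    ∑ i, VV A i ≤ T := by
  have k1 := asmLow h hn ca cp cr cs spr sps srs
  have k2 := gains_hi h.of h.low G H hn
  linarith

end

end Pool.Agent.Helper5.TS
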