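import Pool.Agent.Helper5.TS.AsmLow
import Pool.Agent.Helper74.TS.Far
import Pool.Agent.Helper78.TS.Multi

/-!
# The two-row column of `CaseOneLow`: the cell of the low class and one own far cell

Column `z`, rows `x`, `y`, low class `a`. `CD w A B d f`: the numbers of a far cell `(i; z)`; with
`hn : [i, z, k, l].Nodup` the number `A` is `1 - cap` on the row `k` and `B` is `1 - cap` on `l`.
The semantic states are those of helper19's list.
-/

set_option autoImplicit false

namespace Pool.Agent.Helper5.TS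

open Pool.Agent.Helper84.TS Pool.Agent.Helper36.TS Pool.Agent.Helper74.TS Pool.Agent.Helper78.TS

/-- the numbers of a far cell -/
structure CD (w A B d f : ℝ) : Prop where
  w0 : 0 < w
  w1 : w ≤ 1
  A0 : 0 < A
  B0 : 0 < B
  d0 : 0 ≤ d
  d1 : d < 1
  sum : A + B = 1 + w - d
  vol : f = vl w A B

theorem CD.swap {w A B d f : ℝ} (h : CD w A B d f) : CD w B A d f :=
  ⟨h.w0, h.w1, h.B0, h.A0, h.d0, h.d1, by linarith [h.sum], by rw [h.vol, vl_comm]⟩

theorem CD.lo {w A B d f : ℝ} (h : CD w A B d f) : w ≤ A + B := by linarith [h.sum, h.d1]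

theorem CD.hi {w A B d f : ℝ} (h : CD w A B d f) : A + B ≤ 1 + w := by linarith [h.sum, h.d0]

/-- the numbers of the cell `F = (i; z)`: `A` belongs to the row `k`, `B` to the row `l` -/
theorem cell_data {A : Fin 4 → Fin 4 → Option (Fin 4 → ℝ)} (h : OF A) {i z k l : Fin 4}
    (hn : [i, z, k, l].Nodup) {F : Fin 4 → ℝ} (hF : A i z = some F) :
    CD (2 + F z) (1 - (F l + (F i - 1))) (1 - (F k + (F i - 1))) (F i - 1) (fcl i F) := by
  have hz : z ≠ i := (nodup_ne hn).1
  have hc := h.cell i z F hF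
  have hf := h.far i z F hz hF
  obtain ⟨b1, b2, b3, b4, b5, b6, b7, b8, b9⟩ := far_bounds hc hn hf.le
  have e := far_formula hc hn hf.le
  refine ⟨b1, b2, by linarith, by linarith, b3, b4, by linarith, ?_⟩
  rw [e, vl, show (2 + F z) - (1 - (F l + (F i - 1))) = -F k by linarith,
    show (2 + F z) - (1 - (F k + (F i - 1))) = -F l by linarith]
  ring

/-- the relation of two far cells `C = (a; z)`, `F = (x; z)` of one column; `A` belongs to the row `x`
of `C`, `B'` to the row `a` of `F` -/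
theorem two_data {A : Fin 4 → Fin 4 → Option (Fin 4 → ℝ)} (h : OF A) {a z x y : Fin 4}
    (hn : [a, z, x, y].Nodup) {C F : Fin 4 → ℝ} (hC : A a z = some C) (hF : A x z = some F) :
    1 - (F y + (F x - 1)) ≤ max (2 + C z) (2 + F z) + (C a - 1) - 1 ∨
      1 - (C y + (C a - 1)) ≤ max (2 + C z) (2 + F z) + (F x - 1) - 1 := by
  have h1 := two_rst h hC hF hn
  have e : min (2 - (2 + C z)) (2 - (2 + F z)) = 2 - max (2 + C z) (2 + F z) := by
    rw [min_sub_sub_left]
  rw [e] at h1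
  rcases le_total (C y) (F y) with h2 | h2
  · rw [max_eq_right h2] at h1
    left
    linarith
  · rw [max_eq_left h2] at h1
    right
    linarith

/-- `vl w A B ≤ w B` -/
theorem vl_le_mul {w A B : ℝ} (hw : 0 ≤ w) (hA : 0 ≤ A) (hB : 0 ≤ B) (lo : w ≤ A + B)
    (hi : A + B ≤ 1 + w) : vl w A B ≤ w * B := by
  unfold vl
  rcases le_total A 1 with h1 | h1
  · have h2 : w * A * B ≤ w * B := by
      have := mul_le_mul_of_nonneg_left h1 (mul_nonneg hw hB)
      linarith
    have h3 : (max (w - A) 0) ^ 3 + (max (w - B) 0) ^ 3 ≤ w ^ 3 := by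
      obtain ⟨p, hp⟩ : ∃ p, p = max (w - A) 0 := ⟨_, rfl⟩
      obtain ⟨q, hq⟩ : ∃ q, q = max (w - B) 0 := ⟨_, rfl⟩
      have p0 : 0 ≤ p := by rw [hp]; exact le_max_right _ _
      have q0 : 0 ≤ q := by rw [hq]; exact le_max_right _ _
      have hs : p + q ≤ w := by
        rw [hp, hq]
        rcases le_total (w - A) 0 with h4 | h4 <;> rcases le_total (w - B) 0 with h5 | h5
        · rw [max_eq_right h4, max_eq_right h5]; linarith
        · rw [max_eq_right h4, max_eq_left h5]; linarith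
        · rw [max_eq_left h4, max_eq_right h5]; linarith
        · rw [max_eq_left h4, max_eq_left h5]; linarith
      rw [← hp, ← hq]
      have h6 : (p + q) ^ 3 ≤ w ^ 3 := pow_le_pow_left₀ (by linarith) hs 3
      nlinarith [mul_nonneg (mul_nonneg p0 q0) p0, mul_nonneg (mul_nonneg p0 q0) q0]
    linarith
  · have hBw : B ≤ w := by linarith
    rw [max_eq_left (by linarith : 0 ≤ w - B)]
    rcases le_total (w - A) 0 with h4 | h4
    · rw [max_eq_right h4]
      have h5 : w * A * B ≤ w * B * (1 + w - B) := by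
        have := mul_le_mul_of_nonneg_left (by linarith : A ≤ 1 + w - B) (mul_nonneg hw hB)
        linarith
      nlinarith [mul_nonneg hB hB, mul_nonneg (mul_nonneg hB hB) hB, mul_nonneg hw hw,
        mul_nonneg (mul_nonneg hw hw) hB, pow_nonneg hB 3]
    · have hw1 : 1 ≤ w := by linarith
      rw [max_eq_left h4]
      have h5 : w * A * B ≤ w * B * (1 + w - B) := by
        have := mul_le_mul_of_nonneg_left (by linarith : A ≤ 1 + w - B) (mul_nonneg hw hB)
        linarith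
      have h7 : (w - A) ^ 3 ≤ B ^ 3 := pow_le_pow_left₀ h4 (by linarith) 3
      nlinarith [mul_nonneg hB hB, mul_nonneg (mul_nonneg hB hB) hB]

/-! ### Real variables -/

/-- the two slots of the column -/
noncomputable def V2 (nx ny k X Y u v : ℝ) : ℝ := sx nx X u + sx ny Y v - k * min u v

theorem V2_swap (nx ny k X Y u v : ℝ) : V2 nx ny k X Y u v = V2 ny nx k Y X v u := by
  unfold V2
  rw [min_comm]
  ring

/-- the numbers of a row of the column -/
structure RD (X u : ℝ) : Prop where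
  d0 : 0 ≤ X
  d1 : X < 3 / 5
  lo : -(1 - X) ≤ u
  hi : u ≤ 1

/-- the numbers of a cell `C` of the low class with `d_C < 11/20` -/
structure CN (w A B : ℝ) : Prop where
  w0 : 0 < w
  w1 : w ≤ 1
  A0 : 0 ≤ A
  B0 : 0 ≤ B
  lo : w + 9 / 20 ≤ A + B
  hi : A + B ≤ 1 + w

theorem CD.cn {w A B d f : ℝ} (h : CD w A B d f) (hd : d < 11 / 20) : CN w A B :=
  ⟨h.w0, h.w1, h.A0.le, h.B0.le, by linarith [h.sum], h.hi⟩

theorem CN.swap {w A B : ℝ} (h : CN w A B) : CN w B A :=
  ⟨h.w0, h.w1, h.B0, h.A0, by linarith [h.lo], by linarith [h.hi]⟩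

/-- state `c` of a mode: `C` alone -/
def Sc (D : ℝ → ℝ → ℝ → Prop) (Φ : ℝ → ℝ → ℝ → ℝ) (nx ny k X Y W : ℝ) : Prop :=
  ∀ w A B u v : ℝ, CN w A B → D w A B → RD X u → RD Y v → u ≤ 1 - A + X → v ≤ 1 - B + Y →
    V2 nx ny k X Y u v + vl w A B ≤ W + Φ w A B

/-- state `cx` of a mode: `C` and the own far cell of `x`, alternative (i) -/
def Scx (D : ℝ → ℝ → ℝ → Prop) (Φ : ℝ → ℝ → ℝ → ℝ) (nx ny k X Y W W' : ℝ) : Prop :=
  ∀ w A B o t u v : ℝ, CN w A B → D w A B → Φ w A B + (W - W') < vl w A B → 0 ≤ o → o ≤ 13 / 20 →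
    0 ≤ t → t ≤ max w (13 / 20) + w - A - B → RD X u → RD Y v → u ≤ X - o → u ≤ 1 - A + X →
    v ≤ 1 - B + Y → V2 nx ny k X Y u v + o * t + vl w A B ≤ W + Φ w A B

/-- the cells with `d_C ≥ 11/20` -/
def Sfr (D : ℝ → ℝ → ℝ → Prop) (Φ : ℝ → ℝ → ℝ → ℝ) (W W' : ℝ) : Prop :=
  ∀ w A B : ℝ, 0 < w → w ≤ 1 → 0 ≤ A → 0 ≤ B → w ≤ A + B → A + B ≤ w + 9 / 20 → D w A B →
    vl w A B ≤ Φ w A B + (W - W')

/-- the own far cell of `x` in alternative (i) with `C`: `T` is the value of the column without `C`,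
`S` the allowed multiple of the slack -/
theorem alt_one {D : ℝ → ℝ → ℝ → Prop} {Φ : ℝ → ℝ → ℝ → ℝ} {nx ny k X Y W W' : ℝ}
    (H : Scx D Φ nx ny k X Y W W') {w A B d f o P Q e g u v S : ℝ} (hC : CD w A B d f)
    (hd : d < 11 / 20) (hD : D w A B) (hF : CD o P Q e g) (ho : o ≤ 13 / 20)
    (ru : RD X u) (rv : RD Y v) (hu : u ≤ 1 - A + X) (hv : v ≤ 1 - B + Y)
    (own : o ≤ -u + max (X - e) 0) (alt : Q ≤ max w o + d - 1) (S0 : 0 ≤ S)
    (base : V2 nx ny k X Y u v + g ≤ W' + S) :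
    V2 nx ny k X Y u v + g + f ≤ W + Φ w A B + S := by
  rcases le_or_gt (vl w A B) (Φ w A B + (W - W')) with h1 | h1
  · have := hC.vol
    linarith
  · have h2 : u ≤ X - o := by
      have : max (X - e) 0 ≤ X := max_le (by linarith [hF.d0]) ru.d0
      linarith
    have h3 : Q ≤ max w (13 / 20) + w - A - B := by
      have e1 : max w o ≤ max w (13 / 20) := max_le_max le_rfl ho
      have e2 := hC.sum
      linarith
    have h4 := H w A B o Q u v (hC.cn hd) hD h1 hF.w0.le ho hF.B0.le h3 ru rv h2 hu hv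
    have h5 := vl_le_mul hF.w0.le hF.A0.le hF.B0.le hF.lo hF.hi
    have h6 := hF.vol
    have h7 := hC.vol
    linarith

end Pool.Agent.Helper5.TS
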