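import Pool.Agent.Helper5.TS.Gain
import Pool.Agent.Helper44.TS.MainBig

/-!
# A high main cell and the gains of the far cells of its class
-/

set_option autoImplicit false

namespace Pool.Agent.Helper5.TS

open Pool.Agent.Helper84.TS Pool.Agent.Helper36.TS Pool.Agent.Helper44.TS

variable {A : Fin 4 → Fin 4 → Option (Fin 4 → ℝ)}

/-- the bounds `φ` of the gains leave room for a high main cell -/
structure HighM (a : Fin 4) (φ : Fin 4 → ℝ → ℝ) (K : ℝ) : Prop where
  star : ∀ m, m ≠ a → ∀ p P : ℝ, 0 ≤ p → p ≤ P → P ≤ 1 → P * φ m p ≤ p * φ m P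
  mono : ∀ m, m ≠ a → ∀ s t : ℝ, 0 ≤ s → s ≤ t → t ≤ 1 → φ m s ≤ φ m t
  n1 : ∀ m, m ≠ a → ∀ d : ℝ, 3 / 5 ≤ d → d ≤ 1 → (1 - d) * (1 - 2 / 3 * d) + φ m d ≤ K
  n2 : ∀ m, m ≠ a → ∀ t : ℝ, 3 / 5 ≤ t → t ≤ 1 →
    HH t - 3 / 20 * ((1 - t) * (5 - t)) + φ m t ≤ K

/-- the volume of a high main cell and the gains that it allows -/
theorem main_hM {a z y x : Fin 4} (hn : [a, z, y, x].Nodup) {M : Fin 4 → ℝ} (cM : IsCell a M)
    (mM : ∀ m, m ≠ a → -M m ≤ 1) (hd : 3 / 5 ≤ M a - 1) {φ : Fin 4 → ℝ → ℝ} {K : ℝ}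
    (H : HighM a φ K) {p q r : ℝ} (hp : p = 0 ∨ 0 < p ∧ p ≤ 1 ∧ p ≤ M z + (M a - 1))
    (hq : q = 0 ∨ 0 < q ∧ q ≤ 1 ∧ q ≤ M y + (M a - 1))
    (hr : r = 0 ∨ 0 < r ∧ r ≤ 1 ∧ r ≤ M x + (M a - 1)) :
    fcl a M + φ z p + φ y q + φ x r ≤ K := by
  have ne := nodup_ne hn
  have aM := cell_lin cM hn
  have eM := main_ent hn mM
  have fM := main_d cM mM
  have d1 : M a - 1 ≤ 1 := by linarith
  have zero : ∀ m, m ≠ a → φ m 0 ≤ 0 := fun m hm => by
    have := H.star m hm 0 1 le_rfl zero_le_one le_rfl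
    linarith
  have nn1 : ∀ m, m ≠ a → fcl a M + φ m (M a - 1) ≤ K := fun m hm => by
    have := H.n1 m hm (M a - 1) hd d1
    linarith
  have low : ∀ m, m ≠ a → ∀ s : ℝ, 0 ≤ s → s ≤ M a - 1 → fcl a M + φ m s ≤ K :=
    fun m hm s h1 h2 => by
    have := H.mono m hm s _ h1 h2 d1
    linarith [nn1 m hm]
  have one : ∀ {m n o : Fin 4}, [a, m, n, o].Nodup → ∀ s : ℝ, 0 < s → s ≤ M m + (M a - 1) →
      fcl a M + φ m s ≤ K := by
    intro m n o hn s h1 h2
    have n := nodup_ne hn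
    have aM := cell_lin cM hn
    have eM := main_ent hn mM
    have t1 : M m + (M a - 1) ≤ 1 := by linarith
    rcases le_total 0 (M m) with h0 | h0
    · have e1 := main_sup_d cM hn mM h0
      have e2 := H.n2 m n.1 (M m + (M a - 1)) (by linarith) t1
      have e3 := H.mono m n.1 s _ h1.le h2 t1
      have e4 : 0 ≤ (M a - 1 - 3 / 5) * ((1 - (M m + (M a - 1))) * (5 - (M m + (M a - 1)))) :=
        mul_nonneg (by linarith) (mul_nonneg (by linarith) (by linarith))
      linarith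
    · exact low m n.1 s h1.le (by linarith)
  have sum : ∀ u v w : ℝ, 0 ≤ u → 0 ≤ v → 0 ≤ w → 0 < u + v + w → u + v + w ≤ M a - 1 →
      fcl a M + φ z u + φ y v + φ x w ≤ K := by
    intro u v w h1 h2 h3 h4 h5
    have e1 := H.star z ne.1 u (u + v + w) h1 (by linarith) (by linarith)
    have e2 := H.star y ne.2.1 v (u + v + w) h2 (by linarith) (by linarith)
    have e3 := H.star x ne.2.2 w (u + v + w) h3 (by linarith) (by linarith)
    have g1 := mul_le_mul_of_nonneg_left (low z ne.1 (u + v + w) h4.le h5) h1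
    have g2 := mul_le_mul_of_nonneg_left (low y ne.2.1 (u + v + w) h4.le h5) h2
    have g3 := mul_le_mul_of_nonneg_left (low x ne.2.2 (u + v + w) h4.le h5) h3
    have g4 : (u + v + w) * (fcl a M + φ z u + φ y v + φ x w) ≤ (u + v + w) * K := by
      ring_nf at e1 e2 e3 g1 g2 g3 ⊢
      linarith
    exact le_of_mul_le_mul_left g4 h4
  have bz : -1 ≤ M z := by linarith
  have by' : -1 ≤ M y := by linarith
  have bx : -1 ≤ M x := by linarith
  rcases hp with hp | hp <;> rcases hq with hq | hq <;> rcases hr with hr | hr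
  · subst hp hq hr
    have := low z ne.1 0 le_rfl (by linarith)
    linarith [zero y ne.2.1, zero x ne.2.2]
  · subst hp hq
    have := one (perm_jl hn) r hr.1 hr.2.2
    linarith [zero y ne.2.1, zero z ne.1]
  · subst hp hr
    have := one (perm_jk hn) q hq.1 hq.2.2
    linarith [zero x ne.2.2, zero z ne.1]
  · subst hp
    exact sum 0 q r le_rfl hq.1.le hr.1.le (by linarith) (by linarith)
  · subst hq hr
    have := one hn p hp.1 hp.2.2
    linarith [zero x ne.2.2, zero y ne.2.1]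
  · subst hq
    exact sum p 0 r hp.1.le le_rfl hr.1.le (by linarith) (by linarith)
  · subst hr
    exact sum p q 0 hp.1.le hq.1.le le_rfl (by linarith) (by linarith)
  · exact sum p q r hp.1.le hq.1.le hr.1.le (by linarith) (by linarith)

/-- **A class without main cell or with a high one.** -/
theorem gains_high (h : OF A) {a z y x : Fin 4} {Γ : Fin 4 → ℝ} {φ : Fin 4 → ℝ → ℝ}
    {B : Fin 4 → Fin 4 → ℝ → ℝ → ℝ} {g τ : ℝ} (G : Gains A a Γ φ B g τ) (H : HighM a φ (g + τ))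
    (hn : [a, z, y, x].Nodup) (h0 : ∀ m, m ≠ a → φ m 0 = 0)
    (ha : A a a = none ∨ ∃ M, A a a = some M ∧ 3 / 5 ≤ M a - 1) :
    fo a (A a a) + Γ z + Γ y + Γ x ≤ g + τ := by
  refine gains_main h G hn h0 fun M hM p q r hp hq hr => ?_
  rcases ha with ha | ⟨M', hM', hd⟩
  · rw [ha] at hM
    exact absurd hM (by simp)
  · rw [hM, Option.some.injEq] at hM'
    subst hM'
    exact main_hM hn (h.cell a a M hM) (h.main a M hM) hd H hp hq hr

end Pool.Agent.Helper5.TS
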